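import Pool.Agent.helper8.AP.PVA
import Pool.Agent.helper92.AP.PVB
import Pool.Agent.helper82.AP.PVC
import Pool.Agent.helper23.AP.BID
import Pool.Agent.helper9.AP.BLA
import Pool.Agent.helper76.AP.CS
import Pool.Agent.helper22.AP.BL1
import Pool.Agent.helper23.AP.BL2
import Pool.Agent.helper65.AP.BLB
import Pool.Agent.helper65.AP.BIL
import Pool.Agent.helper65.AP.BSM

set_option autoImplicit false

/-! # AP, block B: composition -/

namespace Pool.Agent.AP

theorem allBIL : BIL_stmt := BIL BID (BLA (PVC PVA PVB)) (BLB (BL1 CS) BL2)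

theorem allBS : BS_stmt := BSM

end Pool.Agent.AP
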