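import Pool.Agent.helper94.AP.SpecU

set_option autoImplicit false

/-!
# AP (MP_16912e_nt), block M: the main term and the slices (helper94)

RULES as in SpecU (import `Pool.Agent.helper94.AP.SpecM`).
-/

namespace Pool.Agent.AP

open Finset NumberField Pool.Agent.helper3.FT Pool.Agent.helper47.RA Pool.Agent.T5

/-- the weight of `(z, y)` -/
noncomputable def cw (w : ℕ) (g : ℕ → ℕ → ℕ → ℝ) (r z y : ℕ) : ℝ :=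
  if Nat.Coprime y (r * z) then g r (z % LL w) (y % LL w) * (kap w y ((r * z : ℕ) : ℤ) : ℝ) else 0

/-- the mean value of `g` -/
noncomputable def gam (w : ℕ) (g : ℕ → ℕ → ℕ → ℝ) (r : ℕ) : ℝ :=
  (∑ a ∈ range (LL w), ∑ b ∈ range (LL w), g r a b) / (LL w : ℝ) ^ 2

/-- the properties of `g` in LOC -/
structure IsG (p w : ℕ) (g : ℕ → ℕ → ℕ → ℝ) : Prop where
  pos : ∀ r a b, 0 ≤ g r a b
  zer : ∀ r a b q, q ∈ pr w → q ∣ b → q ∣ r * a → g r a b = 0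
  nc : ∀ r z y : ℕ, r ∣ PP w → 1 ≤ z → 1 ≤ y → Nat.Coprime y (r * z) →
    (NC w p r z y : ℝ) = LL w * g r (z % LL w) (y % LL w) * (kap w y ((r * z : ℕ) : ℤ) : ℝ)
  mean : ∑ r ∈ (PP w).divisors, 1 / (r : ℝ) * gam w g r = ∏ q ∈ pr w, (1 - 1 / (q : ℝ) ^ 2) ^ 2

/-- **MX** (medium; from XI).  The number of `x` for given `(r, z, y)`.
Proof.  `M = y² L`, `S` = the classes counted by `NC`.  The conditions depend only on `x` modulo `M`: `x' = x + M s`: `num' = num + 2 x M s + M² s²`, so `y² ∣ num'` iff `y² ∣ num`, and then `dp' = dp + L (2 x s + y² L s²)`; `dp % 4`, `dp % 16`, the divisibility of `dp` by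
`q²` for odd `q ≤ w` and by `r` depend only on `dp` modulo `L` (`16 ∣ L`, `q² ∣ L`, `r ∣ PP w ∣ L`).  `dp y² = num = x² - 4 r z^p`, so `N/2 < -dp ≤ N` is the condition of XI with `T = 4 r z^p`. -/
def MX_stmt : Prop := ∀ (p w r z y : ℕ) (N : ℝ), 2 ≤ w → r ∣ PP w → 1 ≤ z → 1 ≤ y → 0 < N → ∀ F : Finset ℤ,
  (∀ x : ℤ, x ∈ F ↔ (y : ℤ) ^ 2 ∣ num p (r, z, y, x) ∧ (r : ℤ) ∣ dp p (r, z, y, x) ∧ Loc w p (r, z, y, x) ∧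
    N / 2 < -(dp p (r, z, y, x) : ℝ) ∧ -(dp p (r, z, y, x) : ℝ) ≤ N) →
  |(F.card : ℝ) - NC w p r z y * ell (4 * (r : ℝ) * (z : ℝ) ^ p) N y / ((y : ℝ) ^ 2 * LL w)| ≤ 2 * NC w p r z y

/-- **MA** (medium; from MX, BF).  The sum over `(r, z, y)`.
Proof.  A tuple `(r, z, y, x)` with `Bas`, `r ∣ PP w`, `Loc w`: `PP w` is squarefree, so `Squarefree r` is implied by `r ∣ PP w`; `Y/2 < r z ≤ Y` iff `Y/r/2 < z ≤ Y/r` iff `z ∈ Ioc ⌊Y/r/2⌋₊ ⌊Y/r⌋₊` (then `1 ≤ z`); `N y²/2 < - dp y² = 4 r z^p - x² ≤ 4 r (Y/r)^p = N V²`,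
so `y ≤ √2 V ≤ 2 V`.  So the set is the disjoint union over `r ∈ (PP w).divisors`, `z`, `y ∈ Ioc 0 ⌊2 V⌋₊` prime to `r z` of the sets of `x` of MX. -/
def MA_stmt : Prop := ∀ (p w : ℕ) (N Y : ℝ), 2 ≤ w → 1 ≤ N → 1 ≤ Y →
  |({t : Q4 | Bas p N Y t ∧ t.1 ∣ PP w ∧ Loc w p t}.ncard : ℝ) -
    ∑ r ∈ (PP w).divisors, ∑ z ∈ Ioc ⌊Y / r / 2⌋₊ ⌊Y / r⌋₊, ∑ y ∈ Ioc 0 ⌊2 * VV p N r (Y / r)⌋₊,
      (if Nat.Coprime y (r * z) then NC w p r z y * ell (4 * (r : ℝ) * (z : ℝ) ^ p) N y / ((y : ℝ) ^ 2 * LL w) else 0)| ≤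
    ∑ r ∈ (PP w).divisors, ∑ z ∈ Ioc ⌊Y / r / 2⌋₊ ⌊Y / r⌋₊, ∑ y ∈ Ioc 0 ⌊2 * VV p N r (Y / r)⌋₊,
      (if Nat.Coprime y (r * z) then 2 * (NC w p r z y : ℝ) else 0)

/-- **MG** (short to medium; from RW).  Scaling.
Proof.  `T = 4 r z^p`, `N V² = 4 r Z^p`, so `N/T = V⁻² (z/Z)^(-p)`, `√(N/T) = V⁻¹ (z/Z)^(-p/2)` (`Real.rpow`), `2N/√T = 2 √N √(N/T)`. -/
def MG_stmt : Prop := ∀ (p r z y : ℕ) (N Z : ℝ), 1 ≤ r → 1 ≤ z → 1 ≤ y → 0 < N → 0 < Z →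
  ell (4 * (r : ℝ) * (z : ℝ) ^ p) N y / (y : ℝ) ^ 2 =
    2 * √N / VV p N r Z * Ph p ((z : ℝ) / Z) ((y : ℝ) / VV p N r Z)

/-- **MBX** (medium; from BIL, BS).  The sum of `cw` over a box.
Proof.  `L = LL w`; `e = L` satisfies `q ∣ L ↔ q ≤ w`.  `cw w g r z y = g r (z % L) (y % L) [gcd(rad w y, r z) = 1] kap w y (r z)`: if `gcd(y, r z) = 1` clear; otherwise a prime `q` divides `y` and `r z`; if some such `q` is `≤ w` then `g = 0` (`zer`: `q ∣ L`, so `q ∣ y % L`, `q ∣ r (z % L)`);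
if all are `> w` then `q ∣ rad w y` and the bracket is 0.  So the box sum is `∑_{a, b < L} g r a b (S₁ + S₂)`, `S₂` = the sum of BIL (with `m = r`, and `2 N`, `2 V` for `N, V` because the box reaches up to `2 V`), `|S₂| ≤ (2N)^(-c) Z (2 V)`; `S₁` = the sum of BS with
`gcd(rad w y, r z) = 1` iff `gcd(rad w y, z) = 1` (`r ∣ PP w` has only primes `≤ w`): `|S₁ - box/L²| ≤ (2/(w L²)) box + ε' Z (2V)`.  Here `box = (⌊(i+1)Z/K⌋ - ⌊iZ/K⌋)(..)` differs from `(Z/K)(V/K)` by at most `Z + V + 1`.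
There are finitely many `r, a, b`; `K` is fixed, so all errors except `(2/w) gam (Z/K)(V/K)` are at most `ρ (Z/K)(V/K)` for `N` large (`Z, V ≥ N^η`). -/
def MBX_stmt : Prop := ∀ w : ℕ, 2 ≤ w → ∀ g : ℕ → ℕ → ℕ → ℝ, (∀ r a b, 0 ≤ g r a b) →
  (∀ r a b q, q ∈ pr w → q ∣ b → q ∣ r * a → g r a b = 0) → ∀ K : ℕ, 1 ≤ K → ∀ η ρ : ℝ, 0 < η → 0 < ρ →
  ∃ N₀ : ℝ, ∀ N Z V : ℝ, N₀ ≤ N → N ^ η ≤ Z → Z ≤ N → N ^ η ≤ V → V ≤ N → ∀ r ∈ (PP w).divisors,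
  ∀ i ∈ range K, ∀ j ∈ range (2 * K),
    |∑ z ∈ Ioc ⌊(i : ℝ) / K * Z⌋₊ ⌊((i : ℝ) + 1) / K * Z⌋₊,
      ∑ y ∈ Ioc ⌊(j : ℝ) / K * V⌋₊ ⌊((j : ℝ) + 1) / K * V⌋₊, cw w g r z y - gam w g r * (Z / K * (V / K))| ≤
      (2 / w * gam w g r + ρ) * (Z / K * (V / K))

/-- **ERR** (medium; from KAP).  The error term.
Proof.  By `IsG.nc`, `NC = L g kap ≤ L G τ(y)`, `G` the maximum of the finitely many `g r a b`, `r ∣ PP w`, `a, b < L`; `τ(y) ≤ C y^ε'`.  `VV p N r (Y/r) ≤ 2 √(Y^p/N)` (`r (Y/r)^p ≤ Y^p`) `≤ 2 N^(1/2 - p δ/2)` (`Y^p ≤ N^(2 - p δ)`), at most `Y/r ≤ Y` values of `z`: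
the sum is at most `τ(PP w) Y (4 N^(1/2 - pδ/2)) 2 L G C N^ε' ≤ ε Y √N` for `N` large, `ε' < p δ/2`. -/
def ERR_stmt : Prop := ∀ (p w : ℕ) (g : ℕ → ℕ → ℕ → ℝ), 5 ≤ p → 2 ≤ w → IsG p w g → ∀ δ ε : ℝ, 0 < δ → 0 < ε →
  ∃ N₀ : ℝ, ∀ N Y : ℝ, N₀ ≤ N → 1 ≤ Y → Y ≤ N ^ (2 / (p : ℝ) - δ) →
  ∑ r ∈ (PP w).divisors, ∑ z ∈ Ioc ⌊Y / r / 2⌋₊ ⌊Y / r⌋₊, ∑ y ∈ Ioc 0 ⌊2 * VV p N r (Y / r)⌋₊,
      (if Nat.Coprime y (r * z) then 2 * (NC w p r z y : ℝ) else 0) ≤ ε * (Y * √N)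

/-- **ASC** (medium; from LOC, RS, MA, MG, MBX, ERR).  `ASY_stmt p`.
Proof.  `w ≥ 2`, `g` from LOC (`IsG p w g`), `C₀` from RS.  Given `ε`: `ε₁ = ε/(8 C₀)`, `K` from RS for `ε₁`, `ρ = ε/(8 C₀ (τ(PP w) + 1))`, `η = δ/4` (smaller if needed), `N₀` from MBX, ERR (with `ε/4`).  For `r ∣ PP w`: `Z = Y/r`, `V = VV p N r Z = √(4 Y^p/(r^(p-1) N))`; `N^η ≤ Z ≤ N`,
`N^η ≤ V ≤ N` for `N` large (`Y^p ≥ N^(1 + pδ)`, `Y^p ≤ N^2`, `r ≤ PP w`).  By `IsG.nc` and MG the summand of MA is `(2 √N/V) cw w g r z y Ph p (z/Z) (y/V)` (`L` cancels), so by RS (`γ = gam w g r`, `θ = 2/w`) the sum over `z, y` differs from `gam Cst Z √N` by at most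
`2 C₀ (2/w gam + ρ + ε₁ gam) Z √N`.  Sum over `r` with `Z = Y/r`: `∑ gam/r = ∏ (1 - q⁻²)² ≤ 1`, `∑ 1/r ≤ τ(PP w)`: total error `(4 C₀/w + ε/4 + ε/4 + ε/4) Y √N`. -/
def ASC_stmt : Prop := ∀ p : ℕ, p.Prime → 5 ≤ p → LOC_stmt p → RS_stmt p → ASY_stmt p

/-- **SLI** (medium; from AE, BF, TR, SQ, ASY and SEU of T5).  The slices.
Proof.  For `N` large: `16 ≤ N`, `2 ≤ Y`, `8 Y < N` (`Y ≤ N^(2/5)`), so `AA p N Y` is the number of the `t ∈ Bas` with `IsFund (dp t)` (AE).  `IsFund D` implies `D % 4 = 0, 1` and `Pfund q D` for all primes `q` (`Loc w`).  If `r ∤ PP w` then the squarefree `r` has a prime factor `> w`, so `r > w`: TR.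
So `AA ≤ A_w + TR` and `A_w ≤ AA + SQ`, `A_w` the number of ASY; all sets are finite (BF).  With the constants `C` of ASY, TR, SQ: `|AA - Cst ∏ (1 - q⁻²)² Y √N| ≤ (3 C/w + 3 ε') Y √N`; `∏_{q ≤ w} (1 - q⁻²) → 6/π²` (SEU), `c0 = Cst (6/π²)²`: choose `w` large, then `ε'` small. -/
def SLI_stmt : Prop := SEU_stmt → ∀ (p : ℕ) (β : ℝ), p.Prime → 5 ≤ p → β ≤ 2 / (p : ℝ) → BF_stmt → AE_stmt p →
  ASY_stmt p → TR_stmt p → SQ_stmt p β → SLP_stmt p β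

end Pool.Agent.AP
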