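import Pool.Agent.helper94.AP.AllB
import Pool.Agent.helper94.AP.SpecM
import Pool.Agent.helper79.AP.XI
import Pool.Agent.helper69.AP.KAP
import Pool.Agent.helper48.AP.MUX
import Pool.Agent.helper35.AP.MU1
import Pool.Agent.helper43.AP.UBK
import Pool.Agent.helper28.AP.MU2
import Pool.Agent.helper83.AP.MX
import Pool.Agent.helper53.AP.MA
import Pool.Agent.helper59.AP.MG
import Pool.Agent.helper90.AP.MBX
import Pool.Agent.helper56.AP.ERR
import Pool.Agent.helper32.AP.ASC
import Pool.Agent.helper56.AP.SLI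
import Pool.Agent.helper8.AP.AllR
import Pool.Agent.helper3.AP.AllG
import Pool.Agent.helper5.T5.SEU

set_option autoImplicit false

/-! # AP, blocks R, U, M: composition -/

namespace Pool.Agent.AP

theorem allRW : RW_stmt := RW

theorem allMU1 (hRHO : RHO_stmt) : MU1r_stmt := MU1 (MUX XI hRHO KAP) KAP allRW

theorem allMU2 (hRHO : RHO_stmt) : MU2r_stmt := MU2 (MUX XI hRHO KAP) KAP allRW (UBK allBIL KAP)

theorem allASY (p : ℕ) (hp : p.Prime) (h5 : 5 ≤ p) (hL : LOC_stmt p) : ASY_stmt p :=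
  ASC KAP (MA (MX XI) gBF) (MG allRW) (MBX allBIL allBS) (ERR KAP) p hp h5 hL (RS p)

end Pool.Agent.AP
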