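import Pool.Agent.helper82.T5.SpecS

set_option autoImplicit false

/-!
# AP (MP_16912e_nt): classes of order `p`, every prime `p ≥ 5`

INTERFACE between the blocks F, G, L, R, Q (architects helper82, helper3, helper95, helper8, helper26)
and B, U, M (helper94).  Every statement below is final; the rows of a block go into the spec file of
the block, which imports this file.

THE METHOD.  A primitive ideal `a` of the imaginary quadratic field of discriminant `D < -4` with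
`a ^ p` principal is `a = a₁ 𝔯`, `𝔯` the product of the ramified primes dividing `a`, `r = N 𝔯`
squarefree, `r ∣ D`, `z = N a₁`, and `a₁ ^ p 𝔯 = (θ)`, `θ = (x + y √D) / 2` primitive of norm
`r z^p`: `x² - D y² = 4 r z^p`, `gcd (y, r z) = 1`.  So one counts the tuples `(r, z, y, x)` for which
`D = (x² - 4 r z^p) / y²` is a fundamental discriminant divisible by `r`.
For fixed `(r, z, y)` the integer `x` runs through classes modulo `y² L` in an interval of length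
`ell (4 r z^p) N y`; the number of classes is `L g(r, z, y) ∏ (1 + (r z / q))` over the primes `q > w`
of `y`; the average over `z ≤ Y / r`, `y ≤ V = √(4 r (Y/r)^p / N)` is a bilinear sum of Jacobi symbols.
-/

namespace Pool.Agent.AP

open Finset NumberField Pool.Agent.helper3.FT Pool.Agent.helper47.RA Pool.Agent.T5
open scoped nonZeroDivisors

/-! ## Ideals and classes -/

/-- primitive ideals whose class has order exactly `p`, of norm in `(Y / 2, Y]` -/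
def IAp (p : ℕ) (K : Type) [Field K] [NumberField K] (Y : ℝ) : Set (Ideal (𝓞 K)) :=
  {a | a ≠ ⊥ ∧ Prim a ∧ (a ^ p).IsPrincipal ∧ ¬ a.IsPrincipal ∧
    Y / 2 < (Ideal.absNorm a : ℝ) ∧ (Ideal.absNorm a : ℝ) ≤ Y}

/-- primitive principal ideals of norm in `(Y / 2, Y]` -/
def IPr (K : Type) [Field K] [NumberField K] (Y : ℝ) : Set (Ideal (𝓞 K)) :=
  {a | a ≠ ⊥ ∧ Prim a ∧ a.IsPrincipal ∧
    Y / 2 < (Ideal.absNorm a : ℝ) ∧ (Ideal.absNorm a : ℝ) ≤ Y}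

open Classical in
/-- number of primitive ideals of exact order `p` and norm in `(Y / 2, Y]`, field of discriminant `D` -/
noncomputable def cAp (p : ℕ) (D : ℤ) (Y : ℝ) : ℕ :=
  if h : Nonempty (Fld D) then (IAp p h.some.K Y).ncard else 0

open Classical in
/-- number of primitive principal ideals -/
noncomputable def cPr (D : ℤ) (Y : ℝ) : ℕ :=
  if h : Nonempty (Fld D) then (IPr h.some.K Y).ncard else 0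

/-- the sum over a slice `N / 2 < -D ≤ N` -/
noncomputable def AA (p : ℕ) (N Y : ℝ) : ℝ := ∑ D ∈ DN N, (cAp p D Y : ℝ)

/-- the same for principal ideals -/
noncomputable def PA (N Y : ℝ) : ℝ := ∑ D ∈ DN N, (cPr D Y : ℝ)

/-- classes of order exactly `p` which contain an integral ideal of norm at most `Y` -/
def CLSp (p : ℕ) (K : Type) [Field K] [NumberField K] (Y : ℝ) : Set (ClassGroup (𝓞 K)) :=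
  {c | c ^ p = 1 ∧ c ≠ 1 ∧ ∃ a : (Ideal (𝓞 K))⁰, ClassGroup.mk0 a = c ∧
    (Ideal.absNorm (a : Ideal (𝓞 K)) : ℝ) ≤ Y}

/-! ## Tuples -/

/-- `(r, z, y, x)` -/
abbrev Q4 : Type := ℕ × ℕ × ℕ × ℤ

/-- `x² - 4 r z^p` -/
def num (p : ℕ) (t : Q4) : ℤ := t.2.2.2 ^ 2 - 4 * (t.1 : ℤ) * (t.2.1 : ℤ) ^ p

/-- the discriminant `(x² - 4 r z^p) / y²` -/
def dp (p : ℕ) (t : Q4) : ℤ := num p t / (t.2.2.1 : ℤ) ^ 2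

/-- the basic tuples (no condition that the discriminant is fundamental) -/
structure Bas (p : ℕ) (N Y : ℝ) (t : Q4) : Prop where
  r1 : Squarefree t.1
  z1 : 1 ≤ t.2.1
  y1 : 1 ≤ t.2.2.1
  co : Nat.Coprime t.2.2.1 (t.1 * t.2.1)
  dv : (t.2.2.1 : ℤ) ^ 2 ∣ num p t
  rD : (t.1 : ℤ) ∣ dp p t
  Y1 : Y / 2 < (t.1 : ℝ) * t.2.1
  Y2 : (t.1 : ℝ) * t.2.1 ≤ Y
  N1 : N / 2 < -(dp p t : ℝ)
  N2 : -(dp p t : ℝ) ≤ N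

/-- the product of the primes up to `w` -/
def PP (w : ℕ) : ℕ := ∏ q ∈ pr w, q

/-- `D` is a discriminant, fundamental at the primes up to `w` -/
def Loc (w p : ℕ) (t : Q4) : Prop :=
  (dp p t % 4 = 0 ∨ dp p t % 4 = 1) ∧ ∀ q ∈ pr w, Pfund q (dp p t)

/-! ## Arithmetic functions -/

/-- the product of the primes `q > w` of `y` -/
def rad (w y : ℕ) : ℕ := ∏ q ∈ y.primeFactors.filter (fun q => w < q), q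

/-- `∏ (1 + (n / q))` over the primes `q > w` of `y` -/
def kap (w y : ℕ) (n : ℤ) : ℤ := ∏ q ∈ y.primeFactors.filter (fun q => w < q), (1 + jacobiSym n q)

/-- the modulus `L = 16 ∏_{2 < q ≤ w} q²` -/
def LL (w : ℕ) : ℕ := 16 * ∏ q ∈ (pr w).erase 2, q ^ 2

open Classical in
/-- the number of classes of `x` modulo `y² L` -/
noncomputable def NC (w p r z y : ℕ) : ℕ :=
  ((range (y ^ 2 * LL w)).filter (fun x => (y : ℤ) ^ 2 ∣ num p (r, z, y, (x : ℤ)) ∧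
    (r : ℤ) ∣ dp p (r, z, y, (x : ℤ)) ∧ Loc w p (r, z, y, (x : ℤ)))).card

/-! ## The length of the `x` interval -/

/-- the length of the set of the `x` with `N y² / 2 < T - x² ≤ N y²` -/
noncomputable def ell (T N y : ℝ) : ℝ := 2 * (√(T - N / 2 * y ^ 2) - √(T - N * y ^ 2))

/-- `h(t) / t²`, `h(t) = √(1 - t²/2) - √(1 - t²)`, in a form which is continuous on `[0, ∞)` -/
noncomputable def Gf (t : ℝ) : ℝ :=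
  if t ≤ 1 then 1 / (2 * (√(1 - t ^ 2 / 2) + √(1 - t ^ 2))) else √(1 - t ^ 2 / 2) / t ^ 2

/-- the weight in scaled coordinates `u = z / Z`, `v = y / V` -/
noncomputable def Ph (p : ℕ) (u v : ℝ) : ℝ :=
  u ^ (-((p : ℝ) / 2)) * Gf (v * u ^ (-((p : ℝ) / 2)))

/-- `(π / 2) (1 - 1 / √2)`, so `c0 = Cst (6 / π²)²` -/
noncomputable def Cst : ℝ := Real.pi / 2 * (1 - 1 / √2)

/-! ## Block F (helper82): final assembly -/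

/-- the asymptotic for the slices, range `N ^ (1/p + δ) ≤ Y ≤ N ^ (β - δ)` -/
def SLP_stmt (p : ℕ) (β : ℝ) : Prop :=
  ∀ δ : ℝ, 0 < δ → ∀ ε : ℝ, 0 < ε → ∃ N₀ : ℝ, ∀ N Y : ℝ, N₀ ≤ N → N ^ (1 / (p : ℝ) + δ) ≤ Y →
    Y ≤ N ^ (β - δ) → |AA p N Y - c0 * (Y * √N)| ≤ ε * (Y * √N)

/-- upper bound for the small slices -/
def UB_stmt (p : ℕ) (β : ℝ) : Prop :=
  ∀ δ : ℝ, 0 < δ → ∃ c : ℝ, 0 < c ∧ ∀ ε : ℝ, 0 < ε → ∃ C : ℝ, 1 ≤ C ∧ ∀ N M Y : ℝ, 1 ≤ M → M ≤ N →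
    1 ≤ Y → Y ≤ N ^ (β - δ) → AA p M Y ≤ C * N ^ ε * (Y * √M + N ^ (-c) * (Y * √N))

open Classical in
/-- the main theorem -/
def MAINP_stmt (p : ℕ) (β : ℝ) : Prop :=
  ∀ h : ℤ → ℝ → ℕ, (∀ (K : Type) [Field K] [NumberField K], Module.finrank ℚ K = 2 → ∀ Y : ℝ,
    h (NumberField.discr K) Y = (CLSp p K Y).ncard) →
  ∀ δ : ℝ, 0 < δ → ∀ ε : ℝ, 0 < ε → ∃ N₀ : ℝ, ∀ N Y : ℝ, N₀ ≤ N → N ^ (1 / (p : ℝ) + δ) ≤ Y →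
    Y ≤ N ^ (β - δ) →
    |∑ D ∈ (Icc (-⌊N⌋) (-1)).filter IsFund, (h D Y : ℝ) - 36 / Real.pi ^ 3 * (Y * √N)| ≤ ε * (Y * √N)

/-- **F1**, the goal of block F, first part.  From the slices to the main theorem; as SC1, SC2, SC3, SCM
(`Pool/Agent/helper95/T5/SpecM.lean`) with `p` for `5`, `N ^ (1/p + δ')` for `N ^ 0.39`, and `UB_stmt`
in the place of `U_stmt`: for the slices `(N / 2^i, Y / 2^j)` outside the good range use `UB_stmt` at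
`(N, N / 2^i, Y / 2^j)`: `C N^ε (u Y √N + N^(-c) 2^(-j) Y √N)`, the second term summed over
`i ≤ 2 log N` and `j` is `≤ C N^(2ε - c) Y √N`. -/
def F1_stmt : Prop := ∀ (p : ℕ) (β : ℝ), p.Prime → 5 ≤ p → 1 / (p : ℝ) < β → β ≤ 1 / 2 →
  SLP_stmt p β → UB_stmt p β → MAINP_stmt p β

/-- **F2**, second part: `p = 5`.  (1) `U_stmt` gives `UB_stmt 5 (1/2)`, `UB_stmt 5 (2/5)` (`cAp 5 = cA`
by `rfl`; `(M Y)^ε ≤ N^(2ε)`).  (2) the direct range `N^(1/5+δ) ≤ Y ≤ N^(2/5-δ)` and the range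
`N^0.39 ≤ Y ≤ N^(1/2-δ)` of T5 (`SLU_stmt`, `SLL_stmt`) give `SLP_stmt 5 (1/2)`. -/
def F2_stmt : Prop := U_stmt → (UB_stmt 5 (1 / 2) ∧ UB_stmt 5 (2 / 5)) ∧
  ((∀ δ : ℝ, 0 < δ → δ ≤ 1 / 10 → SLU_stmt δ) → (∀ δ : ℝ, 0 < δ → δ ≤ 1 / 10 → SLL_stmt δ) →
    SLP_stmt 5 (2 / 5) → SLP_stmt 5 (1 / 2))

/-! ## Block G (helper3): algebra -/

/-- finiteness: `z, r ≤ Y`, `N y² / 2 < 4 r z^p`, `x² ≤ 4 r z^p` -/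
def BF_stmt : Prop := ∀ (p : ℕ) (N Y : ℝ), 0 < N → {t : Q4 | Bas p N Y t}.Finite

/-- the bijection between ideals and tuples -/
def AE_stmt (p : ℕ) : Prop := ∀ N Y : ℝ, 16 ≤ N → 2 ≤ Y → 8 * Y < N →
  AA p N Y = ({t : Q4 | Bas p N Y t ∧ IsFund (dp p t)}.ncard : ℝ)

/-- the trivial bound by the number of all ideals -/
def AT_stmt (p : ℕ) : Prop := ∀ ε : ℝ, 0 < ε → ∃ C : ℝ, 1 ≤ C ∧ ∀ N Y : ℝ, 1 ≤ N → 1 ≤ Y →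
  AA p N Y ≤ C * Y ^ ε * (N * Y)

/-- principal ideals -/
def PR_stmt : Prop := ∃ C : ℝ, 1 ≤ C ∧ ∀ N Y : ℝ, 1 ≤ N → 2 ≤ Y → PA N Y ≤ C * (Y * √N)

/-- tuples whose discriminant is `D₀ f²` with `f` prime to `r z`: they come from ideals of the field of
discriminant `D₀` -/
def FB_stmt (p : ℕ) : Prop := ∀ ε : ℝ, 0 < ε → ∃ C : ℝ, 1 ≤ C ∧ ∀ N Y f₀ : ℝ, 1 ≤ N → 2 ≤ Y →
  1 ≤ f₀ → f₀ ^ 2 ≤ N → ∀ I : ℕ, N < 2 ^ I →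
  ({t : Q4 | Bas p N Y t ∧ ∃ (D₀ : ℤ) (f : ℕ), IsFund D₀ ∧ dp p t = D₀ * (f : ℤ) ^ 2 ∧ f₀ ≤ f ∧
      Nat.Coprime f (t.1 * t.2.1)}.ncard : ℝ) ≤
    C * (N * Y) ^ ε * ∑ i ∈ range I, (AA p (N / f₀ ^ 2 / 2 ^ i) Y + PA (N / f₀ ^ 2 / 2 ^ i) Y)

/-! ## Block L (helper95): local densities -/

/-- LOC: the number of classes is `L g ∏ (1 + (r z / q))`, and the mean value of `g` -/
def LOC_stmt (p : ℕ) : Prop := ∀ w : ℕ, 2 ≤ w → ∃ g : ℕ → ℕ → ℕ → ℝ,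
  (∀ r a b, 0 ≤ g r a b) ∧
  (∀ r a b q, q ∈ pr w → q ∣ b → q ∣ r * a → g r a b = 0) ∧
  (∀ r z y : ℕ, r ∣ PP w → 1 ≤ z → 1 ≤ y → Nat.Coprime y (r * z) →
    (NC w p r z y : ℝ) = LL w * g r (z % LL w) (y % LL w) * (kap w y ((r * z : ℕ) : ℤ) : ℝ)) ∧
  ∑ r ∈ (PP w).divisors, 1 / (r : ℝ) *
    ((∑ a ∈ range (LL w), ∑ b ∈ range (LL w), g r a b) / (LL w : ℝ) ^ 2) =
    ∏ q ∈ pr w, (1 - 1 / (q : ℝ) ^ 2) ^ 2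

/-- RHO: the number of roots -/
def RHO_stmt : Prop := ∀ K n : ℕ, 1 ≤ K → Nat.Coprime K n →
  (((range (K ^ 2)).filter (fun x : ℕ => (K : ℤ) ^ 2 ∣ (x : ℤ) ^ 2 - 4 * (n : ℤ))).card : ℤ) ≤
    8 * kap 2 K (n : ℤ)

/-! ## Block R (helper8): the weight function and sums in boxes -/

/-- RW: `ell` in terms of `Gf`; bounds for `Gf` -/
def RW_stmt : Prop :=
  (∀ T N y : ℝ, 0 < T → 0 < N → 0 < y → ell T N y / y ^ 2 = 2 * N / √T * Gf (y * √(N / T))) ∧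
  (∀ t : ℝ, 0 ≤ t → 0 ≤ Gf t ∧ Gf t ≤ 1) ∧ (∀ t : ℝ, √2 ≤ t → Gf t = 0)

/-- RS: from boxes to the weight `Ph` -/
def RS_stmt (p : ℕ) : Prop := ∃ C : ℝ, 1 ≤ C ∧ ∀ ε : ℝ, 0 < ε → ∃ K : ℕ, 2 ≤ K ∧ Even K ∧
  ∀ (c : ℕ → ℕ → ℝ), (∀ z y, 0 ≤ c z y) → ∀ Z V γ θ ρ : ℝ, 0 < Z → 0 < V → 0 ≤ γ → 0 ≤ θ → 0 ≤ ρ →
  (∀ i ∈ Ico (K / 2) K, ∀ j ∈ range (2 * K),
    |∑ z ∈ Ioc ⌊(i : ℝ) / K * Z⌋₊ ⌊((i : ℝ) + 1) / K * Z⌋₊,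
      ∑ y ∈ Ioc ⌊(j : ℝ) / K * V⌋₊ ⌊((j : ℝ) + 1) / K * V⌋₊, c z y - γ * (Z / K * (V / K))| ≤
      (θ * γ + ρ) * (Z / K * (V / K))) →
  |∑ z ∈ Ioc ⌊Z / 2⌋₊ ⌊Z⌋₊, ∑ y ∈ Ioc 0 ⌊2 * V⌋₊, c z y * Ph p ((z : ℝ) / Z) ((y : ℝ) / V) -
    γ * (Cst / 2) * (Z * V)| ≤ C * (θ * γ + ρ + ε * γ) * (Z * V)

/-! ## Block B (helper94): bilinear sums -/

/-- BIL: cancellation in the bilinear sum -/
def BIL_stmt : Prop := ∀ w e : ℕ, 2 ≤ w → 1 ≤ e → (∀ q : ℕ, q.Prime → (q ∣ e ↔ q ≤ w)) →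
  ∀ η : ℝ, 0 < η → ∃ c N₀ : ℝ, 0 < c ∧ ∀ N Z V : ℝ, N₀ ≤ N → N ^ η ≤ Z → Z ≤ N → N ^ η ≤ V → V ≤ N →
  ∀ m : ℕ, 1 ≤ m → (m : ℝ) ≤ N ^ c → ∀ a b Z₁ Z₂ V₁ V₂ : ℕ, (Z₂ : ℝ) ≤ Z → (V₂ : ℝ) ≤ V →
  |∑ z ∈ (Ioc Z₁ Z₂).filter (fun z => z ≡ a [MOD e]), ∑ y ∈ (Ioc V₁ V₂).filter (fun y => y ≡ b [MOD e]),
      if Nat.Coprime (rad w y) (m * z) then ((kap w y ((m * z : ℕ) : ℤ) : ℝ) - 1) else 0| ≤
    N ^ (-c) * (Z * V)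

/-- BS: the main term -/
def BS_stmt : Prop := ∀ w e : ℕ, 2 ≤ w → 1 ≤ e → (∀ q : ℕ, q.Prime → (q ∣ e ↔ q ≤ w)) →
  ∀ ε : ℝ, 0 < ε → ∃ T₀ : ℝ, ∀ Z V : ℝ, T₀ ≤ Z → T₀ ≤ V →
  ∀ a b Z₁ Z₂ V₁ V₂ : ℕ, (Z₂ : ℝ) ≤ Z → (V₂ : ℝ) ≤ V → Z₁ ≤ Z₂ → V₁ ≤ V₂ →
  |(∑ z ∈ (Ioc Z₁ Z₂).filter (fun z => z ≡ a [MOD e]), ∑ y ∈ (Ioc V₁ V₂).filter (fun y => y ≡ b [MOD e]),
      if Nat.Coprime (rad w y) z then (1 : ℝ) else 0) -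
    ((Z₂ : ℝ) - Z₁) * ((V₂ : ℝ) - V₁) / (e : ℝ) ^ 2| ≤
    2 / (w * (e : ℝ) ^ 2) * (((Z₂ : ℝ) - Z₁) * ((V₂ : ℝ) - V₁)) + ε * (Z * V)

/-! ## Block U (helper94): master upper bounds -/

/-- the triples `(z, y, x)` of the master bound -/
structure MS (p : ℕ) (N : ℝ) (c s k : ℕ) (Z : ℝ) (t : ℕ × ℕ × ℤ) : Prop where
  z1 : Z / 2 < t.1
  z2 : (t.1 : ℝ) ≤ Z
  y1 : 1 ≤ t.2.1
  co : Nat.Coprime (t.2.1 * k) (c * t.1)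
  sx : (s : ℤ) ∣ t.2.2
  dv : ((t.2.1 * k : ℕ) : ℤ) ^ 2 ∣ t.2.2 ^ 2 - 4 * (c : ℤ) * (t.1 : ℤ) ^ p
  n1 : N / 2 * (t.2.1 : ℝ) ^ 2 < 4 * (c : ℝ) * (t.1 : ℝ) ^ p - (t.2.2 : ℝ) ^ 2
  n2 : 4 * (c : ℝ) * (t.1 : ℝ) ^ p - (t.2.2 : ℝ) ^ 2 ≤ N * (t.2.1 : ℝ) ^ 2

/-- `V = √(4 c Z^p / N)` -/
noncomputable def VV (p : ℕ) (N : ℝ) (c : ℕ) (Z : ℝ) : ℝ := √(4 * (c : ℝ) * Z ^ p / N)

/-- MU1: crude bound, all parameters -/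
def MU1_stmt (p : ℕ) : Prop := ∀ ε : ℝ, 0 < ε → ∃ C : ℝ, 1 ≤ C ∧ ∀ (N Z : ℝ) (c s k : ℕ),
  1 ≤ N → 1 ≤ Z → 1 ≤ c → 1 ≤ s → 1 ≤ k → s ∣ c →
  {t : ℕ × ℕ × ℤ | MS p N c s k Z t}.Finite ∧
  ({t : ℕ × ℕ × ℤ | MS p N c s k Z t}.ncard : ℝ) ≤
    C * (N * Z * c * k) ^ ε * (Z * √N / (s * (k : ℝ) ^ 2) + Z * VV p N c Z)

/-- MU2: sharp bound for small `c` -/
def MU2_stmt (p : ℕ) : Prop := ∀ η : ℝ, 0 < η → ∀ ε : ℝ, 0 < ε → ∃ c₁ C N₀ : ℝ, 0 < c₁ ∧ 1 ≤ C ∧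
  ∀ (N Z : ℝ) (c s k : ℕ), N₀ ≤ N → N ^ η ≤ Z → Z ≤ N → 1 ≤ c → (c : ℝ) ≤ N ^ c₁ → 1 ≤ s → s ∣ c →
  (k = 1 ∨ k.Prime) → (k : ℝ) ≤ N → N ^ η ≤ VV p N c Z → VV p N c Z ≤ N →
  ({t : ℕ × ℕ × ℤ | MS p N c s k Z t}.ncard : ℝ) ≤
    C * (Z * √N / (s * (k : ℝ) ^ 2)) + N ^ ε * (Z * VV p N c Z)

/-! ## Block Q (helper26): tails and square factors -/

/-- TR: the tuples with `r > w` -/
def TR_stmt (p : ℕ) : Prop := ∀ δ : ℝ, 0 < δ → ∃ C : ℝ, 1 ≤ C ∧ ∀ w : ℕ, 2 ≤ w → ∀ ε : ℝ, 0 < ε →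
  ∃ N₀ : ℝ, ∀ N Y : ℝ, N₀ ≤ N → N ^ (1 / (p : ℝ) + δ) ≤ Y → Y ≤ N ^ (2 / (p : ℝ) - δ) →
  ({t : Q4 | Bas p N Y t ∧ w < t.1}.ncard : ℝ) ≤ (C / w + ε) * (Y * √N)

/-- SQ: the tuples with a square factor `q² ∣ D`, `q > w` -/
def SQ_stmt (p : ℕ) (β : ℝ) : Prop := ∀ δ : ℝ, 0 < δ → ∃ C : ℝ, 1 ≤ C ∧ ∀ w : ℕ, 2 ≤ w → ∀ ε : ℝ, 0 < ε →
  ∃ N₀ : ℝ, ∀ N Y : ℝ, N₀ ≤ N → N ^ (1 / (p : ℝ) + δ) ≤ Y → Y ≤ N ^ (β - δ) →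
  ({t : Q4 | Bas p N Y t ∧ t.1 ∣ PP w ∧ Loc w p t ∧ ¬ IsFund (dp p t)}.ncard : ℝ) ≤
    (C / w + ε) * (Y * √N)

/-- the goals of block Q: for `p` prime, `p ≥ 5`, from `BF, AE, AT, PR, FB` and `MU1, MU2` -/
def Q_stmt : Prop := ∀ p : ℕ, p.Prime → 5 ≤ p → BF_stmt → AE_stmt p → AT_stmt p → PR_stmt → FB_stmt p →
  MU1_stmt p → MU2_stmt p →
  TR_stmt p ∧ UB_stmt p (3 / (2 * (p : ℝ))) ∧
    ∀ β : ℝ, β ≤ 2 / (p : ℝ) → UB_stmt p β → SQ_stmt p β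

/-! ## Block M (helper94): the main term -/

/-- ASY: tuples with local conditions -/
def ASY_stmt (p : ℕ) : Prop := ∀ δ : ℝ, 0 < δ → ∃ C : ℝ, 1 ≤ C ∧ ∀ w : ℕ, 2 ≤ w → ∀ ε : ℝ, 0 < ε →
  ∃ N₀ : ℝ, ∀ N Y : ℝ, N₀ ≤ N → N ^ (1 / (p : ℝ) + δ) ≤ Y → Y ≤ N ^ (2 / (p : ℝ) - δ) →
  |({t : Q4 | Bas p N Y t ∧ t.1 ∣ PP w ∧ Loc w p t}.ncard : ℝ) -
    Cst * (∏ q ∈ pr w, (1 - 1 / (q : ℝ) ^ 2) ^ 2) * (Y * √N)| ≤ (C / w + ε) * (Y * √N)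

end Pool.Agent.AP
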