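import Pool.Agent.helper94.AP.AllM
import Pool.Agent.helper26.AP.AllQ
import Pool.Agent.helper82.AP.AllF
import Pool.Agent.helper95.AP.AllL
import Pool.Agent.helper95.T5.Final

set_option autoImplicit false

/-!
# AP (MP_16912e_nt): the main theorems

`mainP`: every prime `p ≥ 5`, `N ^ (1/p + δ) ≤ Y ≤ N ^ (3/(2p) - δ)`.
`main5`: `p = 5`, `N ^ (1/5 + δ) ≤ Y ≤ N ^ (1/2 - δ)`.
-/

namespace Pool.Agent.AP

theorem odd_of (p : ℕ) (hp : p.Prime) (h5 : 5 ≤ p) : Odd p := hp.odd_of_ne_two (by omega)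

/-- the slices in the direct range -/
theorem slices (p : ℕ) (hp : p.Prime) (h5 : 5 ≤ p) (β : ℝ) (hβ : β ≤ 2 / (p : ℝ))
    (hUB : UB_stmt p β) : SLP_stmt p β := by
  have hodd := odd_of p hp h5
  have hQ := qQ p hp h5 gBF (gAE p hp h5) (gAT p) gPR (gFB p hp h5) (allMU1 Pool.Agent.APL.rho p hodd) (allMU2 Pool.Agent.APL.rho p hodd)
  exact SLI Pool.Agent.T5.SEU p β hp h5 hβ gBF (gAE p hp h5) (allASY p hp h5 (Pool.Agent.APL.loc_all p hodd (by omega)))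
    hQ.1 (hQ.2.2 β hβ hUB)

theorem ub (p : ℕ) (hp : p.Prime) (h5 : 5 ≤ p) : UB_stmt p (3 / (2 * (p : ℝ))) := by
  have hodd := odd_of p hp h5
  exact (qQ p hp h5 gBF (gAE p hp h5) (gAT p) gPR (gFB p hp h5) (allMU1 Pool.Agent.APL.rho p hodd) (allMU2 Pool.Agent.APL.rho p hodd)).2.1

/-- every prime `p ≥ 5` -/
theorem mainP (p : ℕ) (hp : p.Prime) (h5 : 5 ≤ p) : MAINP_stmt p (3 / (2 * (p : ℝ))) := by
  have hp0 : (0 : ℝ) < p := by positivity
  have h5' : (5 : ℝ) ≤ p := by exact_mod_cast h5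
  have hUB := ub p hp h5
  refine fF1 p _ hp h5 ?_ ?_ (slices p hp h5 _ ?_ hUB) hUB
  · rw [div_lt_div_iff₀ hp0 (by positivity)]
    linarith
  · rw [div_le_div_iff₀ (by positivity) (by norm_num)]
    linarith
  · rw [div_le_div_iff₀ (by positivity) hp0]
    nlinarith

/-- `p = 5`: the whole range -/
theorem main5 : MAINP_stmt 5 (1 / 2) := by
  have h5 : Nat.Prime 5 := by norm_num
  obtain ⟨⟨hU1, hU2⟩, hG⟩ := fF2 Pool.Agent.T5.finU
  have hS : SLP_stmt 5 (2 / 5) := slices 5 h5 le_rfl _ (by norm_num) hU2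
  refine fF1 5 _ h5 le_rfl (by norm_num) le_rfl ?_ hU1
  exact hG Pool.Agent.T5.fin.1 Pool.Agent.T5.fin.2.1 hS

end Pool.Agent.AP
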