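import Pool.Agent.helper94.AP.Defs

set_option autoImplicit false

/-!
# AP (MP_16912e_nt), block B: bilinear sums of Jacobi symbols (helper94)

RULES. Row `ap:XXX` is a file `Pool/Agent/<seat>/AP/XXX.lean`: `import Pool.Agent.helper94.AP.SpecB`,
`set_option autoImplicit false`, `namespace Pool.Agent.AP`, `open Finset`, and the theorem whose EXACT
line is in the lock note (other rows only as hypotheses; an unused hypothesis may stay).  Auxiliary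
lemmas are prefixed `XXX_`.  No `convert`, `congr!`, `native_decide`, no double quotes.

`e (x) = exp (2 π i x)` is `Pool.Agent.helper3.FT.e`.  Facts on Jacobi symbols in Mathlib:
`jacobiSym.mod_left`, `jacobiSym.mod_right` (`b` odd: `J(a | b) = J(a | b % (4 * a.natAbs))`), `jacobiSym.mul_left`,
`jacobiSym.mul_right`, `jacobiSym.quadratic_reciprocity`, `jacobiSym.quadratic_reciprocity_one_mod_four`, `jacobiSym.trichotomy`,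
`jacobiSym.eq_zero_iff_not_coprime`, `jacobiSym.sq_one`.  Landed examples: `Pool/Agent/helper62/SU/DLS.lean`, `Pool/Agent/helper77/SU/QRT.lean`.
-/

namespace Pool.Agent.AP

open Finset Pool.Agent.helper3.FT

/-! ## Pólya-Vinogradov -/

/-- **PVA** (medium).  Gauss sums of the Jacobi symbol modulo an odd squarefree `d`.
Proof.  `S(h) = ∑_{x mod d} J(x|d) e(h x/d)`; the summand depends only on `x` modulo `d`.  (a) `gcd(h, d) ≠ 1`: let `q` be a prime dividing both, `d = q d'`, `q ∤ d'`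
(squarefree).  Choose `a = 1 mod d'`, `a` a nonresidue modulo the odd prime `q` (exists; Chinese remainder theorem).  `a` is a unit modulo `d`, so `x ↦ a x` permutes the
classes, `J(a x|d) = J(a|q) J(a|d') J(x|d) = - J(x|d)`, and `h a x/d - h x/d = (h/q) (a - 1) x/d'` is an integer: `S(h) = -S(h)`.  (b) `gcd(h, d) = 1`: `x ↦ h x` gives
`S(h) J(h|d) = S(1)`, so `|S(h)| = |S(1)|`.  Parseval: `∑_{h mod d} |S(h)|² = d #{x mod d : J(x|d) ≠ 0} ≤ d φ(d)` (orthogonality: `∑_h e(h (x - y)/d) = d [x = y mod d]`), and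
`φ(d)` classes `h` are prime to `d`: `φ(d) |S(1)|² ≤ d φ(d)`. -/
def PVA_stmt : Prop := ∀ d : ℕ, Odd d → Squarefree d → 1 ≤ d → ∀ h : ℤ,
  ‖∑ x ∈ range d, ((jacobiSym (x : ℤ) d : ℤ) : ℂ) * e ((h : ℝ) * x / d)‖ ≤ √(d : ℝ) ∧
  (¬ IsCoprime h (d : ℤ) → ∑ x ∈ range d, ((jacobiSym (x : ℤ) d : ℤ) : ℂ) * e ((h : ℝ) * x / d) = 0)

/-- **PVB** (medium).  Completion of an incomplete sum.
Proof.  Since a full period sums to 0, we may assume that the interval has length `< d` (remove complete periods).  `f(x) = (1/d) ∑_{h mod d} S(h) e(-h x/d)` (orthogonality), so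
`∑_{x ∈ I} f(x) = (1/d) ∑_{h=1}^{d-1} S(h) ∑_{x ∈ I} e(-h x/d)` (`S(0) = 0`), and the geometric sum is at most `1/|sin(π h/d)| ≤ d/(2 min(h, d - h))` (`2 |2 x| ≤ |sin (π x)| 2`
for `|x| ≤ 1/2`, Jordan's inequality `Real.mul_le_sin`).  `∑_{h=1}^{d-1} 1/(2 min(h, d-h)) ≤ ∑_{h ≤ d/2} 1/h ≤ 1 + log d`. -/
def PVB_stmt : Prop := ∀ (d : ℕ) (f : ℤ → ℂ) (B : ℝ), 1 ≤ d → 0 ≤ B → (∀ x : ℤ, f (x + d) = f x) →
  (∀ h : ℤ, ‖∑ x ∈ range d, f (x : ℤ) * e ((h : ℝ) * x / d)‖ ≤ B) → ∑ x ∈ range d, f (x : ℤ) = 0 →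
  ∀ A A' : ℤ, ‖∑ x ∈ Ioc A A', f x‖ ≤ B * (1 + Real.log d)

/-- the inequality of Pólya and Vinogradov (from PVA, PVB: `f x = J(x|d)`, `B = √d`, `S(0) = 0` as `d > 1`) -/
def PV_stmt : Prop := ∀ d : ℕ, Odd d → Squarefree d → 2 ≤ d → ∀ A A' : ℤ,
  |((∑ x ∈ Ioc A A', jacobiSym x d : ℤ) : ℝ)| ≤ √(d : ℝ) * (1 + Real.log d)

/-- **PVC** (medium; from PVA, PVB).  Progressions and coprimality.
Proof.  First `PV_stmt`.  If `gcd(g, m) ≠ 1` all terms vanish.  Otherwise `[gcd(g, m z) = 1] = [gcd(g, z) = 1] = ∑_{f | gcd(g, z)} μ(f)`; for `f ∣ g` write `z = f z'`, `Z₁/f < z' ≤ Z₂/f`;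
`z = a mod e` says `z' = a' mod e` for one class `a'` (`f` is prime to `e`), `z' = a' + e t`, `t` in an interval of integers; `e e' = 1 mod d`:
`J(m z|d) = J(m f e|d) J(t + e' a'|d)`.  So the sum for `f` is at most `√d (1 + log d)` by PV (a shift of the interval); there are at most `τ(g)` numbers `f`. -/
def PVC_stmt : Prop := ∀ d e₀ g m : ℕ, Odd d → Squarefree d → 2 ≤ d → 1 ≤ e₀ → 1 ≤ g → 1 ≤ m → Nat.Coprime d e₀ →
  Nat.Coprime g e₀ → ∀ a Z₁ Z₂ : ℕ,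
  |((∑ z ∈ (Ioc Z₁ Z₂).filter (fun z => z ≡ a [MOD e₀]),
    if Nat.Coprime g (m * z) then jacobiSym ((m * z : ℕ) : ℤ) d else 0 : ℤ) : ℝ)| ≤
    (g.divisors.card : ℝ) * (√(d : ℝ) * (1 + Real.log d))

/-! ## The bilinear sum -/

/-- the part with `d ∈ S` of the bilinear sum (`y = d k`) -/
def bs (w e₀ m a b Z₁ Z₂ V₁ V₂ : ℕ) (S : Finset ℕ) : ℤ :=
  ∑ d ∈ S.filter (fun d => 2 ≤ d ∧ Squarefree d ∧ Nat.Coprime d e₀),
    ∑ k ∈ (Ioc (V₁ / d) (V₂ / d)).filter (fun k => d * k ≡ b [MOD e₀]),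
      ∑ z ∈ (Ioc Z₁ Z₂).filter (fun z => z ≡ a [MOD e₀]),
        if Nat.Coprime (rad w k) (m * z) then jacobiSym ((m * z : ℕ) : ℤ) d else 0

/-- **BID** (medium).  The identity.
Proof.  `n = m z`.  `kap w y n = ∏_{q ∣ rad w y} (1 + J(n|q)) = ∑_{d ∣ rad w y} J(n|d)` (`Finset.prod_one_add` or `Finset.prod_add_one`, divisors of a squarefree number are the products over subsets of its prime factors:
`Nat.sum_divisors_filter_squarefree`, or directly; `jacobiSym.mul_right`).  The term `d = 1` is 1.  `d ∣ rad w y`, `d ≥ 2` is: `d ∣ y`, `d` squarefree, `d ≥ 2`, all primes of `d` are `> w`, that is `d` is prime to `e₀`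
(`q ∣ e₀ ↔ q ≤ w`).  `y = d k`, `V₁ < d k ≤ V₂` iff `V₁/d < k ≤ V₂/d` (natural division).  If `J(n|d) ≠ 0` then `gcd(d, n) = 1`, and then `gcd(rad w (d k), n) = 1` iff `gcd(rad w k, n) = 1` (the primes `> w`
of `d k` are those of `d` and those of `k`).  Exchange the sums; all `d ≤ V₂`. -/
def BID_stmt : Prop := ∀ w e₀ : ℕ, 2 ≤ w → 1 ≤ e₀ → (∀ q : ℕ, q.Prime → (q ∣ e₀ ↔ q ≤ w)) →
  ∀ m a b Z₁ Z₂ V₁ V₂ : ℕ, 1 ≤ m →
  ∑ z ∈ (Ioc Z₁ Z₂).filter (fun z => z ≡ a [MOD e₀]), ∑ y ∈ (Ioc V₁ V₂).filter (fun y => y ≡ b [MOD e₀]),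
      (if Nat.Coprime (rad w y) (m * z) then (kap w y ((m * z : ℕ) : ℤ) - 1) else 0) =
    bs w e₀ m a b Z₁ Z₂ V₁ V₂ (Icc 1 V₂)

/-- **BLA** (medium; from PVC).  The part `d ≤ Δ`.
Proof.  `d` is odd (prime to `e₀`, `2 ∣ e₀`), `rad w k` is prime to `e₀`, `τ(rad w k) ≤ τ(k)`.  By PVC the sum over `z` is at most `τ(k) √d (1 + log d)`; `∑_{k ≤ V/d} τ(k) ≤ (V/d) (1 + log V)` for `d ≤ V`
(`∑_{k ≤ x} τ(k) = ∑_{j ≤ x} ⌊x/j⌋ ≤ x (1 + log x)`), the sum is empty for `d > V`; `∑_{d ≤ Δ} 1/√d ≤ 2 √Δ`. -/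
def BLA_stmt : Prop := ∀ w e₀ : ℕ, 2 ≤ w → 1 ≤ e₀ → (∀ q : ℕ, q.Prime → (q ∣ e₀ ↔ q ≤ w)) →
  ∀ m a b Z₁ Z₂ V₁ V₂ Δ : ℕ, 1 ≤ m → 1 ≤ Δ → ∀ V : ℝ, 1 ≤ V → (V₂ : ℝ) ≤ V →
  |(bs w e₀ m a b Z₁ Z₂ V₁ V₂ (Icc 1 Δ) : ℝ)| ≤ 2 * V * √(Δ : ℝ) * (1 + Real.log V) * (1 + Real.log Δ)

/-- **CS** (medium).  Cancellation in the lower entry.
Proof.  `d = s + e₀ t` with `t` in an interval (or `d ∈ (A, B]`, `d = s mod e₀`; order the `d`); `d` is odd (`gcd(s, e₀) = 1`, `2 ∣ e₀`), `J(n|d)` has period `4 n` in odd `d` (`jacobiSym.mod_right`), so `t ↦ J(n|s + e₀ t)` has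
period `4 n`.  A complete period sums to 0: let `v = v_ℓ(n)` be odd, `n = ℓ^v n'`; `ℓ` is odd (`2 ∣ e₀`).  Choose `c = 1 mod 8 e₀ n'`, `c` a nonresidue modulo `ℓ` (CRT, `ℓ ∤ 8 e₀ n'`).  `J(n'|c) = J(n'|1) = 1`
(`mod_right`), `J(ℓ|c) = J(c|ℓ) = -1` (`c = 1 mod 4`), so `J(n|c) = -1`; `d ↦ c d` permutes the classes modulo `4 n e₀` which are `s` modulo `e₀`, and multiplies the summand by `-1` (`jacobiSym.mul_right`).
What remains after complete periods are less than `4 n` terms, each `≤ 1`. -/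
def CS_stmt : Prop := ∀ e₀ n s : ℕ, 1 ≤ e₀ → 2 ∣ e₀ → 1 ≤ n → Nat.Coprime s e₀ →
  (∃ l : ℕ, l.Prime ∧ ¬ l ∣ e₀ ∧ Odd (n.factorization l)) → ∀ A B : ℕ,
  |∑ d ∈ (Ioc A B).filter (fun d => d ≡ s [MOD e₀]), jacobiSym (n : ℤ) d| ≤ 4 * (n : ℤ)

/-- **BL1** (medium; from CS).  Squarefree numbers.
Proof.  `[d squarefree] = ∑_{j² ∣ d} μ(j)`; `d` prime to `e₀`, so `j` is prime to `e₀`; `d = j² d'`, `J(n|d) = J(n|j)² J(n|d')`, `J(n|j)² = [gcd(j, n) = 1]`.  `d'` is prime to `e₀` and `d' j² k = b mod e₀`: a union of at most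
`e₀` classes `s`, prime to `e₀`.  By CS each gives at most `4 n`; trivially the sum over `d'` is at most `D₂/j² ≤ X/j²`.  For every real `J ≥ 1`: the sum is at most `4 e₀ n J + X ∑_{j > J} 1/j² ≤ 4 e₀ n J + 2 X/J`.
If `X ≥ n`: `J = √(X/n)`: `(4 e₀ + 2) √(n X)`.  If `X < n`: the trivial bound `X ≤ √(n X)`. -/
def BL1_stmt : Prop := ∀ e₀ n k b : ℕ, 1 ≤ e₀ → 2 ∣ e₀ → 1 ≤ n →
  (∃ l : ℕ, l.Prime ∧ ¬ l ∣ e₀ ∧ Odd (n.factorization l)) → ∀ D₁ D₂ : ℕ, ∀ X : ℝ, 1 ≤ X → (D₂ : ℝ) ≤ X →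
  |((∑ d ∈ (Ioc D₁ D₂).filter (fun d => Squarefree d ∧ Nat.Coprime d e₀ ∧ d * k ≡ b [MOD e₀]),
    jacobiSym (n : ℤ) d : ℤ) : ℝ)| ≤ 9 * e₀ * √((n : ℝ) * X)

/-- **BL2** (short to medium).  Few exceptional `z`.
Proof.  `m z = u s²`, `u` = the product of the primes `ℓ` with odd valuation; all are `≤ w`, so `u ∣ PP w` (the product of the primes `≤ w`), `s ≥ 1`, `s² ≤ m Z`.  `z ↦ (u, s)` is injective. -/
def BL2_stmt : Prop := ∀ w e₀ : ℕ, 2 ≤ w → 1 ≤ e₀ → (∀ q : ℕ, q.Prime → (q ∣ e₀ ↔ q ≤ w)) →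
  ∀ m : ℕ, 1 ≤ m → ∀ Z : ℝ, 1 ≤ Z → ∀ F : Finset ℕ, (∀ z ∈ F, 1 ≤ z ∧ (z : ℝ) ≤ Z ∧
    ∀ l : ℕ, l.Prime → ¬ l ∣ e₀ → Even ((m * z).factorization l)) →
  (F.card : ℝ) ≤ (PP w).divisors.card * √(m * Z)

/-- **BLB** (medium; from BL1, BL2).  The part `d > Δ`.
Proof.  Exchange: for fixed `z`, `k` with `gcd(rad w k, m z) = 1` the sum over `d ∈ (max(Δ, V₁/k), V₂/k]`, `d ≥ 2` squarefree, prime to `e₀`, `d k = b mod e₀` (`V₁/d < k ≤ V₂/d` iff `V₁/k < d ≤ V₂/k`; add or drop `d = 1`: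
`d > Δ ≥ 1`).  `k ≤ V₂/d < V/Δ`.  `z` not exceptional: BL1 with `n = m z ≤ m Z`, `X = V/k` (`V/k ≥ 1`): `9 e₀ √(m Z V/k)`, `∑_{k < V/Δ} 1/√k ≤ 2 √(V/Δ)`: total `18 e₀ Z V √(m Z/Δ)`.
Exceptional `z` (no prime `ℓ ∤ e₀` with odd valuation in `m z`; BL2): trivial bound `∑_{k ≤ V} V/k ≤ V (1 + log V)`. -/
def BLB_stmt : Prop := ∀ w e₀ : ℕ, 2 ≤ w → 1 ≤ e₀ → (∀ q : ℕ, q.Prime → (q ∣ e₀ ↔ q ≤ w)) →
  ∀ m a b Z₁ Z₂ V₁ V₂ Δ : ℕ, 1 ≤ m → 1 ≤ Δ → ∀ Z V : ℝ, 1 ≤ Z → 1 ≤ V → (Z₂ : ℝ) ≤ Z → (V₂ : ℝ) ≤ V →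
  |(bs w e₀ m a b Z₁ Z₂ V₁ V₂ (Ioc Δ V₂) : ℝ)| ≤
    18 * e₀ * Z * V * √(m * Z / Δ) + (PP w).divisors.card * √(m * Z) * V * (1 + Real.log V)

/-- **BIL** (medium; from BID, BLA, BLB).  `BIL_stmt`.
Proof.  `Δ = ⌈Z^(3/2)⌉₊`.  If `Δ < V₂`: `Icc 1 V₂` is the disjoint union of `Icc 1 Δ` and `Ioc Δ V₂` (`bs` is additive in `S`); otherwise `bs` of `Icc 1 V₂` and of `Icc 1 Δ` agree (for `d > V₂` the range of `k` is empty), and BLA suffices.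
BLA: `2 V √Δ (1 + log V) (1 + log Δ) ≤ 4 V Z^(3/4) (1 + log N) (2 + 2 log N)`, BLB: `18 e₀ Z V √m Z^(-1/4) + τ √(m Z) V (1 + log N)`, `m ≤ N^c`; divide by `Z V`, `Z ≥ N^η`: all terms are at most `N^(-c)/3` for `c = η/16` and `N` large. -/
def BILr_stmt : Prop := BIL_stmt

/-- **BSM** (medium).  `BS_stmt`.
Proof.  All pairs `(z, y)` in the box with `z = a`, `y = b mod e₀`: the number of `z` is `(Z₂ - Z₁)/e₀ + O(1)`, of `y` is `(V₂ - V₁)/e₀ + O(1)`: the product is `box/e₀² + O(Z + V + 1)`.  Subtract the pairs with `gcd(rad w y, z) ≠ 1`: there is a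
prime `q > w` with `q ∣ z`, `q ∣ y`; `q ∤ e₀`, so the number of these `z` is at most `(Z₂ - Z₁)/(q e₀) + 1`, of these `y` at most `(V₂ - V₁)/(q e₀) + 1`, for `q ≤ Q`; for `q > Q` the trivial bound `(Z/q) (V/q)`.
`∑_{q > w} 1/q² ≤ 1/w`, `∑_{q > Q} 1/q² ≤ 1/Q` (all integers, telescoping).  Total error `box/(w e₀²) + ZV/Q + O_Q(Z + V)`; `Q ≥ 2/ε`, `T₀` large. -/
def BSMr_stmt : Prop := BS_stmt

end Pool.Agent.AP
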