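import Pool.Agent.helper94.AP.Defs

set_option autoImplicit false

/-!
# AP (MP_16912e_nt), block U: master upper bounds (helper94)

RULES. Row `ap:XXX` is a file `Pool/Agent/<seat>/AP/XXX.lean`: `import Pool.Agent.helper94.AP.SpecU`,
`set_option autoImplicit false`, `namespace Pool.Agent.AP`, `open Finset`, and the theorem whose EXACT
line is in the lock note (other statements only as hypotheses; an unused hypothesis may stay).  Auxiliary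
lemmas are prefixed `XXX_`.  No `convert`, `congr!`, `native_decide`, no double quotes.
The divisor bound `τ(n) ≤ C n^ε` is `Pool.Agent.helper47.RA.card_divisors_le` (`Pool/Agent/helper47/RA/Num.lean`).
-/

namespace Pool.Agent.AP

open Finset

/-- **XI** (medium).  The number of `x` in the interval and in given classes.
Proof.  For an interval of real numbers of length `λ ≥ 0` (open, closed or half open) and a class modulo `M` the number of integers of the interval in the class differs from `λ/M` by at most 1.  The condition is `T - N y² ≤ x² < T - N y²/2`.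
If `T ≤ N y²/2`: no `x`, `ell = 0`.  If `N y²/2 < T ≤ N y²`: `|x| < √(T - N y²/2)`, one interval of length `ell` (`Real.sqrt` of a number `≤ 0` is 0).  If `N y² < T`: `√(T - N y²) ≤ |x| < √(T - N y²/2)`: two
intervals of length `ell/2`.  Sum over the classes `s ∈ S`. -/
def XI_stmt : Prop := ∀ (M : ℕ) (S : Finset ℕ), 1 ≤ M → S ⊆ range M → ∀ T N y : ℝ, 0 < N → 0 < y →
  ∀ F : Finset ℤ, (∀ x : ℤ, x ∈ F ↔ N / 2 * y ^ 2 < T - (x : ℝ) ^ 2 ∧ T - (x : ℝ) ^ 2 ≤ N * y ^ 2 ∧ (x % (M : ℤ)).toNat ∈ S) →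
  |(F.card : ℝ) - S.card * ell T N y / M| ≤ 2 * S.card

/-- **KAP** (short to medium).  Bounds for `kap`.
Proof.  All factors `1 + J(n|q)` are `0, 1, 2`; `kap ≤ 2^(number of primes of y) ≤ τ(y)` (subsets of the prime factors give different squarefree divisors, or `Nat.Coprime` multiplicativity of `τ`).  (2) `k` prime, `k ∣ y`: the prime factors of `y k` are those of `y`.  `k ∤ y`:
one more factor `≤ 2` (if `k > 2`) or none.  (3) `q ∣ y`: `q ∤ z`, `J(z|q) = ± 1`, `J(c z^p|q) = J(c|q) J(z|q)^p = J(c z|q)`, `p` odd. -/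
def KAP_stmt : Prop := (∀ (w y : ℕ) (n : ℤ), 1 ≤ y → 0 ≤ kap w y n ∧ kap w y n ≤ (y.divisors.card : ℤ)) ∧
  (∀ (y k : ℕ) (n : ℤ), 1 ≤ y → (k = 1 ∨ k.Prime) → kap 2 (y * k) n ≤ 2 * kap 2 y n) ∧
  (∀ (w y c z p : ℕ), 1 ≤ y → Odd p → Nat.Coprime y (c * z) → kap w y ((c * z ^ p : ℕ) : ℤ) = kap w y ((c * z : ℕ) : ℤ))

/-- **MUX** (medium; from XI, RHO, KAP).  The number of `x` for given `(z, y)`.
Proof.  `n = c z^p`, `A = y k`; `A` is prime to `c z`, so to `n` and to `s`.  Modulus `M = s A²`; the classes `x` modulo `M` with `s ∣ x`, `A² ∣ x² - 4 n`: at most as many as roots modulo `A²` (CRT: `x` modulo `M` is determined by `x mod s = 0` and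
`x mod A²`), so at most `8 kap 2 A n = 8 kap 2 A (c z)` (RHO, KAP (3)).  XI (upper bound) with `S` = these classes, `T = 4 n`: `#F ≤ #S (ell/M + 2)` (`F` is contained in the finset of XI). -/
def MUX_stmt : Prop := ∀ (p : ℕ) (N : ℝ) (c s k z y : ℕ), Odd p → 0 < N → 1 ≤ c → 1 ≤ s → 1 ≤ k → 1 ≤ z → 1 ≤ y → s ∣ c →
  Nat.Coprime (y * k) (c * z) → ∀ F : Finset ℤ,
  (∀ x ∈ F, (s : ℤ) ∣ x ∧ ((y * k : ℕ) : ℤ) ^ 2 ∣ x ^ 2 - 4 * (c : ℤ) * (z : ℤ) ^ p ∧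
    N / 2 * (y : ℝ) ^ 2 < 4 * (c : ℝ) * (z : ℝ) ^ p - (x : ℝ) ^ 2 ∧ 4 * (c : ℝ) * (z : ℝ) ^ p - (x : ℝ) ^ 2 ≤ N * (y : ℝ) ^ 2) →
  (F.card : ℝ) ≤ 8 * (kap 2 (y * k) ((c * z : ℕ) : ℤ) : ℝ) *
    (ell (4 * (c : ℝ) * (z : ℝ) ^ p) N y / (s * (y : ℝ) ^ 2 * (k : ℝ) ^ 2) + 2)

/-- **MU1** (medium; from MUX, KAP, RW).  `MU1_stmt p`.
Proof.  `T = 4 c z^p ≤ 4 c Z^p = N V²`, `V = VV p N c Z`.  `N y²/2 < T`, so `y < √2 √(T/N) ≤ √2 V` (finiteness: `z ≤ Z`, `y ≤ √2 V`, `x² ≤ T`).  MUX, `kap 2 (y k) ≤ τ(y k) ≤ C' (y k)^ε'`; `y k ≤ 2 V k ≤ 4 (c Z^p) k ≤ 4 (c Z k)^p` (`V ≤ 2 √(c Z^p)`,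
`N ≥ 1`), `ε' = ε/p`.  `ell/y² = (2N/√T) Gf ≤ 2N/√T` (RW); at most `√2 √(T/N)` values of `y`: for given `z` the sum over `y` of `ell/y²` is at most `2 √2 √N`; at most `Z` values of `z` (`1 ≤ z ≤ Z`).  Total `8 C' 4^ε' (c Z k)^ε (3 Z √N/(s k²) + 2 √2 Z V)`. -/
def MU1r_stmt : Prop := ∀ p : ℕ, Odd p → MU1_stmt p

/-- **UBK** (short to medium; from BIL, KAP).  The mean value of `kap` is bounded.
Proof.  BIL with `w = 2`, `e = 2`, `Z₁ = V₁ = 0`, `Z₂ = ⌊Z⌋₊`, `V₂ = ⌊V⌋₊`, the four classes `a, b ∈ {0, 1}`: `[gcd(y, m z) = 1] kap ≤ [gcd(rad 2 y, m z) = 1] kap = [..] + [..] (kap - 1)`; sum `≤ Z V + 4 N^(-c) Z V ≤ 3 Z V` for `N` large (`kap ≥ 0`; `rad 2 y ∣ y`). -/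
def UBK_stmt : Prop := ∀ η : ℝ, 0 < η → ∃ c₁ N₀ : ℝ, 0 < c₁ ∧ ∀ N Z V : ℝ, N₀ ≤ N → N ^ η ≤ Z → Z ≤ N → N ^ η ≤ V → V ≤ N →
  ∀ m : ℕ, 1 ≤ m → (m : ℝ) ≤ N ^ c₁ →
  ∑ z ∈ Ioc 0 ⌊Z⌋₊, ∑ y ∈ Ioc 0 ⌊V⌋₊, (if Nat.Coprime y (m * z) then (kap 2 y ((m * z : ℕ) : ℤ) : ℝ) else 0) ≤ 3 * (Z * V)

/-- **MU2** (medium; from MUX, KAP, RW, UBK).  `MU2_stmt p`.
Proof.  `V = VV p N c Z`.  As in MU1 `y < √2 V ≤ 2 V`.  `T = 4 c z^p ≥ 4 c (Z/2)^p = N V²/2^p`, so `ell/y² ≤ 2N/√T ≤ 2 √N 2^(p/2)/V`.  MUX with `kap 2 (y k) ≤ 2 kap 2 y`: the number is at most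
`∑_z ∑_{y ≤ 2V} 16 kap 2 y (c z) (2 √N 2^(p/2)/(V s k²) + 2)`, and UBK with `2N` for `N`, `Z`, `2V`, `m = c` (`(2N)^(η/2) ≤ N^η` for `N` large): `≤ 96 Z V (2 √N 2^(p/2)/(V s k²) + 2)`.  `192 ≤ N^ε` for `N` large. -/
def MU2r_stmt : Prop := ∀ p : ℕ, Odd p → MU2_stmt p

end Pool.Agent.AP
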